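import Mathlib

/-!
MP_9e990c, helper86: the characteristic 3 deduction (steps (b)-(e) of the proof), abstractly.
-/

namespace MP9e990c
namespace H86

variable {M : Type*} [Field M] [CharP M 3]

omit [CharP M 3] in
theorem three_smul' [CharP M 3] (a : M) : a + a + a = 0 := by
  have h : (3 : M) = 0 := by
    have := CharP.cast_eq_zero M 3
    exact_mod_cast this
  linear_combination a * h

theorem two_ne : (2 : M) ≠ 0 := by
  have h : (3 : M) = 0 := by
    have := CharP.cast_eq_zero M 3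
    exact_mod_cast this
  intro h2
  have : (1 : M) = 0 := by linear_combination h - h2
  exact one_ne_zero this

section Casimir

variable (t : M) (D1 D3 : Derivation ℤ M M)

/-- `L = t D₁ + D₃` -/
def Lop : Derivation ℤ M M := t • D1 + D3

theorem Lop_apply (F : M) : Lop t D1 D3 F = t * D1 F + D3 F := by
  simp [Lop]

variable {t D1 D3}

theorem D_mul_const {D : Derivation ℤ M M} {c : M} (hc : D c = 0) (F : M) :
    D (c * F) = c * D F := by
  rw [D.leibniz, hc]; simp

variable (ht1 : D1 t = 0) (ht3 : D3 t = 0) (hcomm : ∀ F, D1 (D3 F) = D3 (D1 F))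
  (h1 : ∀ F, D1 (D1 (D1 F)) = D1 F) (h3 : ∀ F, D3 (D3 (D3 F)) = D3 F)

include ht1 ht3 hcomm h1 h3 in
theorem L_cube (F : M) :
    Lop t D1 D3 (Lop t D1 D3 (Lop t D1 D3 F)) = t ^ 3 * D1 F + D3 F := by
  have e2 : Lop t D1 D3 (Lop t D1 D3 F)
      = t ^ 2 * D1 (D1 F) + 2 * t * D1 (D3 F) + D3 (D3 F) := by
    simp only [Lop_apply, map_add, D_mul_const ht1, D_mul_const ht3, hcomm]
    ring
  rw [e2]
  have c1 : D1 (t ^ 2) = 0 := by simp [pow_two, D1.leibniz, ht1]
  have c3 : D3 (t ^ 2) = 0 := by simp [pow_two, D3.leibniz, ht3]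
  have c1' : D1 (2 * t) = 0 := by rw [two_mul]; simp [ht1]
  have c3' : D3 (2 * t) = 0 := by rw [two_mul]; simp [ht3]
  simp only [Lop_apply, map_add, D_mul_const c1, D_mul_const c3, D_mul_const c1',
    D_mul_const c3']
  have k1 : D3 (D1 (D1 F)) = D1 (D1 (D3 F)) := by rw [← hcomm, ← hcomm]
  have k2 : D3 (D1 (D3 F)) = D1 (D3 (D3 F)) := by rw [← hcomm]
  have h : (3 : M) = 0 := by
    have := CharP.cast_eq_zero M 3
    exact_mod_cast this
  rw [k1, k2, h1, h3]
  linear_combination (t ^ 2 * D1 (D1 (D3 F)) + t * D1 (D3 (D3 F))) * h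

include ht1 ht3 hcomm h1 h3 in
/-- Casimir lemma -/
theorem casimir (htt : t ^ 3 ≠ t) {F : M} (hL : Lop t D1 D3 F = 0) : D1 F = 0 ∧ D3 F = 0 := by
  have e := L_cube ht1 ht3 hcomm h1 h3 F
  rw [hL, map_zero, map_zero] at e
  rw [Lop_apply] at hL
  have e1 : (t ^ 3 - t) * D1 F = 0 := by linear_combination -hL - e
  have e2 : D1 F = 0 := by
    rcases mul_eq_zero.mp e1 with h | h
    · exact absurd (sub_eq_zero.mp h) htt
    · exact h
  refine ⟨e2, ?_⟩
  rw [e2] at hL
  simpa using hL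

include ht1 ht3 hcomm h1 h3 in
theorem L_sq_zero (htt : t ^ 3 ≠ t) {F : M} (hL : Lop t D1 D3 (Lop t D1 D3 F) = 0) :
    Lop t D1 D3 F = 0 := by
  have e := L_cube ht1 ht3 hcomm h1 h3 F
  rw [hL, map_zero] at e
  have hLF : Lop t D1 D3 F = (t - t ^ 3) * D1 F := by
    rw [Lop_apply]; linear_combination -e
  have c : Lop t D1 D3 (t - t ^ 3) = 0 := by
    simp [Lop_apply, pow_succ, D1.leibniz, D3.leibniz, ht1, ht3]
  rw [hLF, D_mul_const c] at hL
  have htt' : t - t ^ 3 ≠ 0 := fun h => htt (sub_eq_zero.mp h).symm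
  have hLg : Lop t D1 D3 (D1 F) = 0 := by
    rcases mul_eq_zero.mp hL with h | h
    · exact absurd h htt'
    · exact h
  have h0 := (casimir ht1 ht3 hcomm h1 h3 htt hLg).1
  have h4 : D1 F = 0 := by rw [← h1 F, h0, map_zero]
  rw [hLF, h4, mul_zero]

end Casimir

theorem ne_of_dt {t : M} (dt : Derivation ℤ M M) (h : dt t = 1) : t ^ 3 ≠ t := by
  intro e
  have h3 : (3 : M) = 0 := by
    have := CharP.cast_eq_zero M 3
    exact_mod_cast this
  have h1 : dt (t ^ 3) = 0 := by
    rw [dt.leibniz_pow, h]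
    simp only [nsmul_eq_mul, smul_eq_mul, mul_one, Nat.cast_ofNat]
    rw [h3, zero_mul]
  rw [e, h] at h1
  exact one_ne_zero h1

/-- the bracket of `M` in closed form -/
def br (D2 L : Derivation ℤ M M) (F G : M) : M := D2 F * L G - L F * D2 G

/-- steps (b)-(e): the derivation `v` is zero -/
theorem v_zero (t y1 y2 y3 : M) (hy1 : y1 ≠ 0) (hy2 : y2 ≠ 0) (hy3 : y3 ≠ 0)
    (D1 D2 D3 dt v : Derivation ℤ M M) (a1 a2 a3 : M)
    (ht1 : D1 t = 0) (ht2 : D2 t = 0) (ht3 : D3 t = 0)
    (h11 : D1 y1 = y1) (h12 : D1 y2 = 0) (h13 : D1 y3 = 0)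
    (h21 : D2 y1 = 0) (h22 : D2 y2 = y2) (h23 : D2 y3 = 0)
    (h31 : D3 y1 = 0) (h32 : D3 y2 = 0) (h33 : D3 y3 = y3)
    (hcomm : ∀ F, D1 (D3 F) = D3 (D1 F))
    (hD1 : ∀ F, D1 (D1 (D1 F)) = D1 F) (hD3 : ∀ F, D3 (D3 (D3 F)) = D3 F)
    (hdt : dt t = 1)
    (hv : ∀ F, v F = a1 * D1 F + a2 * D2 F + a3 * D3 F)
    (hbr : ∀ F G, v (br D2 (Lop t D1 D3) F G)
      = br D2 (Lop t D1 D3) (v F) G + br D2 (Lop t D1 D3) F (v G))
    (sg : M →+* M) (hsg : ∀ F, sg (v F) = v (sg F))
    (hs1 : sg y1 = y1⁻¹) (hs2 : sg y2 = y2⁻¹) (hs3 : sg y3 = y3⁻¹)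
    (hstar : ∀ a b : M, a ^ 3 - a = t * (b ^ 3 - b) →
      (∃ n : ℤ, a = n) ∧ (∃ n : ℤ, b = n))
    (hv3 : (∀ F, v (v (v F)) = 0) ∨ (∀ F, v (v (v F)) = v F)) (F : M) : v F = 0 := by
  have h3 : (3 : M) = 0 := by
    have := CharP.cast_eq_zero M 3
    exact_mod_cast this
  have htt : t ^ 3 ≠ t := ne_of_dt dt hdt
  have vy1 : v y1 = a1 * y1 := by rw [hv, h11, h21, h31]; ring
  have vy2 : v y2 = a2 * y2 := by rw [hv, h12, h22, h32]; ring
  have vy3 : v y3 = a3 * y3 := by rw [hv, h13, h23, h33]; ring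
  have vt : v t = 0 := by rw [hv, ht1, ht2, ht3]; ring
  have L1 : Lop t D1 D3 y1 = t * y1 := by rw [Lop_apply, h11, h31]; ring
  have L2 : Lop t D1 D3 y2 = 0 := by rw [Lop_apply, h12, h32]; ring
  have L3 : Lop t D1 D3 y3 = y3 := by rw [Lop_apply, h13, h33]; ring
  -- the three equations
  have E1 : D2 a1 = t * D2 a3 := by
    have e := hbr y1 y3
    simp only [br, vy1, vy3, L1, L3, h21, h23, D2.leibniz, v.leibniz, map_sub, map_zero,
      smul_eq_mul, vt] at e
    have e' : (y1 * y3) * (D2 a1 - t * D2 a3) = 0 := by linear_combination -e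
    rcases mul_eq_zero.mp e' with h | h
    · exact absurd h (mul_ne_zero hy1 hy3)
    · exact sub_eq_zero.mp h
  have E2 : Lop t D1 D3 a1 + t * D2 a2 = 0 := by
    have e := hbr y1 y2
    simp only [br, vy1, vy2, L1, L2, h21, h22, D2.leibniz, v.leibniz, map_sub, map_zero,
      smul_eq_mul, vt, (Lop t D1 D3).leibniz, map_mul] at e
    have e' : (y1 * y2) * (Lop t D1 D3 a1 + t * D2 a2) = 0 := by linear_combination e
    rcases mul_eq_zero.mp e' with h | h
    · exact absurd h (mul_ne_zero hy1 hy2)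
    · exact h
  have E3 : Lop t D1 D3 a3 + D2 a2 = 0 := by
    have e := hbr y3 y2
    simp only [br, vy3, vy2, L3, L2, h23, h22, D2.leibniz, v.leibniz, map_sub, map_zero,
      smul_eq_mul, vt, (Lop t D1 D3).leibniz] at e
    have e' : (y3 * y2) * (Lop t D1 D3 a3 + D2 a2) = 0 := by linear_combination e
    rcases mul_eq_zero.mp e' with h | h
    · exact absurd h (mul_ne_zero hy3 hy2)
    · exact h
  -- A = a1 - t a3
  have A2 : D2 (a1 - t * a3) = 0 := by
    rw [map_sub, D_mul_const ht2, E1, sub_self]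
  have Lt : Lop t D1 D3 t = 0 := by rw [Lop_apply, ht1, ht3]; ring
  have AL : Lop t D1 D3 (a1 - t * a3) = 0 := by
    rw [map_sub, D_mul_const Lt]
    linear_combination E2 - t * E3
  obtain ⟨A1, A3⟩ := casimir ht1 ht3 hcomm hD1 hD3 htt AL
  have vA : v (a1 - t * a3) = 0 := by rw [hv, A1, A2, A3]; ring
  have vA' : v a1 = t * v a3 := by
    have := vA
    rw [map_sub, D_mul_const vt] at this
    exact sub_eq_zero.mp this
  have vvA : v (v a1) = t * v (v a3) := by rw [vA', D_mul_const vt]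
  -- third power
  have cube : ∀ a y : M, v y = a * y → v (v (v y)) = (v (v a) + a ^ 3) * y := by
    intro a y e
    have e2 : v (v y) = (v a + a ^ 2) * y := by
      rw [e, v.leibniz, e]; simp only [smul_eq_mul]; ring
    rw [e2, v.leibniz, e, map_add, v.leibniz_pow]
    simp only [smul_eq_mul, nsmul_eq_mul, Nat.cast_ofNat, Nat.add_one_sub_one, pow_one]
    linear_combination a * v a * y * h3
  -- conclusion from a1 = a3 = 0
  have fin0 : a1 = 0 → a3 = 0 → v a2 = 0 := by
    intro e1 e3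
    have : D2 a2 = 0 := by
      rw [e3, map_zero, zero_add] at E3; exact E3
    rw [hv, e1, e3, this]; ring
  rcases hv3 with hv3 | hv3
  · -- v³ = 0
    have c : ∀ a y : M, y ≠ 0 → v y = a * y → v (v a) + a ^ 3 = 0 := by
      intro a y hy e
      have := cube a y e
      rw [hv3] at this
      rcases mul_eq_zero.mp this.symm with h | h
      · exact h
      · exact absurd h hy
    have c1 := c a1 y1 hy1 vy1
    have c3 := c a3 y3 hy3 vy3
    have c2 := c a2 y2 hy2 vy2
    have k : a1 ^ 3 = t * a3 ^ 3 := by rw [vvA] at c1; linear_combination c1 - t * c3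
    have dcube : ∀ a : M, dt (a ^ 3) = 0 := by
      intro a
      rw [dt.leibniz_pow]
      simp only [nsmul_eq_mul, smul_eq_mul, Nat.cast_ofNat]
      rw [h3, zero_mul]
    have k2 : a3 ^ 3 = 0 := by
      have := congrArg dt k
      rw [dcube, dt.leibniz, dcube, hdt] at this
      simpa using this.symm
    have k3 : a3 = 0 := by simpa using k2
    have k1 : a1 = 0 := by
      rw [k3] at k
      simpa using k
    have va2 := fin0 k1 k3
    have k22 : a2 = 0 := by
      rw [va2, map_zero, zero_add] at c2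
      simpa using c2
    rw [hv, k1, k22, k3]; ring
  · -- v³ = v
    have c : ∀ a y : M, y ≠ 0 → v y = a * y → v (v a) + a ^ 3 = a := by
      intro a y hy e
      have := cube a y e
      rw [hv3, e] at this
      exact (mul_right_cancel₀ hy this).symm
    have c1 := c a1 y1 hy1 vy1
    have c3 := c a3 y3 hy3 vy3
    have c2 := c a2 y2 hy2 vy2
    have k : a1 ^ 3 - a1 = t * (a3 ^ 3 - a3) := by
      rw [vvA] at c1; linear_combination c1 - t * c3
    obtain ⟨⟨n1, hn1⟩, ⟨n3, hn3⟩⟩ := hstar a1 a3 k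
    have sneg : ∀ a y : M, y ≠ 0 → v y = a * y → sg y = y⁻¹ → sg a = -a := by
      intro a y hy e hs
      have e1 := hsg y
      rw [e, map_mul, hs] at e1
      have e2 : v (y⁻¹) = -(a * y⁻¹) := by
        have := v.leibniz y y⁻¹
        rw [mul_inv_cancel₀ hy, v.map_one_eq_zero, e] at this
        simp only [smul_eq_mul] at this
        have hh : y * (v y⁻¹ + a * y⁻¹) = 0 := by
          linear_combination -this
        rcases mul_eq_zero.mp hh with h | h
        · exact absurd h hy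
        · linear_combination h
      rw [e2] at e1
      have hyi : y⁻¹ ≠ 0 := inv_ne_zero hy
      apply mul_right_cancel₀ hyi
      rw [e1]; ring
    have two : (2 : M) ≠ 0 := two_ne
    have zero_of : ∀ a y : M, y ≠ 0 → v y = a * y → sg y = y⁻¹ → sg a = a → a = 0 := by
      intro a y hy e hs hfix
      have := sneg a y hy e hs
      rw [hfix] at this
      have : 2 * a = 0 := by linear_combination this
      rcases mul_eq_zero.mp this with h | h
      · exact absurd h two
      · exact h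
    have z1 : a1 = 0 := zero_of a1 y1 hy1 vy1 hs1 (by rw [hn1]; simp)
    have z3 : a3 = 0 := zero_of a3 y3 hy3 vy3 hs3 (by rw [hn3]; simp)
    have va2 := fin0 z1 z3
    have c2' : a2 ^ 3 = a2 := by
      rw [va2, map_zero, zero_add] at c2; exact c2
    have z2 : a2 = 0 := by
      apply zero_of a2 y2 hy2 vy2 hs2
      have f : a2 * ((a2 - 1) * (a2 + 1)) = 0 := by linear_combination c2'
      rcases mul_eq_zero.mp f with h | h
      · rw [h, map_zero]
      · rcases mul_eq_zero.mp h with h | h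
        · rw [sub_eq_zero.mp h, map_one]
        · rw [eq_neg_of_add_eq_zero_left h, map_neg, map_one]
    rw [hv, z1, z2, z3]; ring

end H86
end MP9e990c
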